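import Pool.Agent.T9h12.M5.H4.Tab

/-! Checks of the Gram representations and of the symmetries. -/

set_option autoImplicit false
set_option maxRecDepth 100000
set_option maxHeartbeats 4000000
open Finset

namespace Pool.Agent.T9h12.M5.H4
open Pool.Agent.H449R2.Fl


theorem hG_0 : nall 24 (ckG T lf hA hC Kr 4194304 8589934592 341 1000 11627198422723 4398046511104 0) = true := by decide +kernel
theorem hG_1 : nall 24 (ckG T lf hA hC Kr 4194304 8589934592 341 1000 11627198422723 4398046511104 1) = true := by decide +kernel
theorem hG_2 : nall 24 (ckG T lf hA hC Kr 4194304 8589934592 341 1000 11627198422723 4398046511104 2) = true := by decide +kernel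
theorem hG_3 : nall 24 (ckG T lf hA hC Kr 4194304 8589934592 341 1000 11627198422723 4398046511104 3) = true := by decide +kernel
theorem hG_4 : nall 24 (ckG T lf hA hC Kr 4194304 8589934592 341 1000 11627198422723 4398046511104 4) = true := by decide +kernel
theorem hG_5 : nall 24 (ckG T lf hA hC Kr 4194304 8589934592 341 1000 11627198422723 4398046511104 5) = true := by decide +kernel
theorem hG_6 : nall 24 (ckG T lf hA hC Kr 4194304 8589934592 341 1000 11627198422723 4398046511104 6) = true := by decide +kernel
theorem hG_7 : nall 24 (ckG T lf hA hC Kr 4194304 8589934592 341 1000 11627198422723 4398046511104 7) = true := by decide +kernel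
theorem hG_8 : nall 24 (ckG T lf hA hC Kr 4194304 8589934592 341 1000 11627198422723 4398046511104 8) = true := by decide +kernel
theorem hG_9 : nall 24 (ckG T lf hA hC Kr 4194304 8589934592 341 1000 11627198422723 4398046511104 9) = true := by decide +kernel
theorem hG_10 : nall 24 (ckG T lf hA hC Kr 4194304 8589934592 341 1000 11627198422723 4398046511104 10) = true := by decide +kernel
theorem hG_11 : nall 24 (ckG T lf hA hC Kr 4194304 8589934592 341 1000 11627198422723 4398046511104 11) = true := by decide +kernel
theorem hG_12 : nall 24 (ckG T lf hA hC Kr 4194304 8589934592 341 1000 11627198422723 4398046511104 12) = true := by decide +kernel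
theorem hG_13 : nall 24 (ckG T lf hA hC Kr 4194304 8589934592 341 1000 11627198422723 4398046511104 13) = true := by decide +kernel
theorem hG_14 : nall 24 (ckG T lf hA hC Kr 4194304 8589934592 341 1000 11627198422723 4398046511104 14) = true := by decide +kernel
theorem hG_15 : nall 24 (ckG T lf hA hC Kr 4194304 8589934592 341 1000 11627198422723 4398046511104 15) = true := by decide +kernel
theorem hG_16 : nall 24 (ckG T lf hA hC Kr 4194304 8589934592 341 1000 11627198422723 4398046511104 16) = true := by decide +kernel
theorem hG_17 : nall 24 (ckG T lf hA hC Kr 4194304 8589934592 341 1000 11627198422723 4398046511104 17) = true := by decide +kernel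
theorem hG_18 : nall 24 (ckG T lf hA hC Kr 4194304 8589934592 341 1000 11627198422723 4398046511104 18) = true := by decide +kernel
theorem hG_19 : nall 24 (ckG T lf hA hC Kr 4194304 8589934592 341 1000 11627198422723 4398046511104 19) = true := by decide +kernel
theorem hG_20 : nall 24 (ckG T lf hA hC Kr 4194304 8589934592 341 1000 11627198422723 4398046511104 20) = true := by decide +kernel
theorem hG_21 : nall 24 (ckG T lf hA hC Kr 4194304 8589934592 341 1000 11627198422723 4398046511104 21) = true := by decide +kernel
theorem hG_22 : nall 24 (ckG T lf hA hC Kr 4194304 8589934592 341 1000 11627198422723 4398046511104 22) = true := by decide +kernel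
theorem hG_23 : nall 24 (ckG T lf hA hC Kr 4194304 8589934592 341 1000 11627198422723 4398046511104 23) = true := by decide +kernel
theorem hG_24 : nall 24 (ckG T lf hA hC Kr 4194304 8589934592 341 1000 11627198422723 4398046511104 24) = true := by decide +kernel
theorem hG_25 : nall 24 (ckG T lf hA hC Kr 4194304 8589934592 341 1000 11627198422723 4398046511104 25) = true := by decide +kernel
theorem hG_26 : nall 24 (ckG T lf hA hC Kr 4194304 8589934592 341 1000 11627198422723 4398046511104 26) = true := by decide +kernel
theorem hG_27 : nall 24 (ckG T lf hA hC Kr 4194304 8589934592 341 1000 11627198422723 4398046511104 27) = true := by decide +kernel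
theorem hG_28 : nall 24 (ckG T lf hA hC Kr 4194304 8589934592 341 1000 11627198422723 4398046511104 28) = true := by decide +kernel
theorem hG_29 : nall 24 (ckG T lf hA hC Kr 4194304 8589934592 341 1000 11627198422723 4398046511104 29) = true := by decide +kernel
theorem hG_30 : nall 24 (ckG T lf hA hC Kr 4194304 8589934592 341 1000 11627198422723 4398046511104 30) = true := by decide +kernel
theorem hG_31 : nall 24 (ckG T lf hA hC Kr 4194304 8589934592 341 1000 11627198422723 4398046511104 31) = true := by decide +kernel
theorem hG_32 : nall 24 (ckG T lf hA hC Kr 4194304 8589934592 341 1000 11627198422723 4398046511104 32) = true := by decide +kernel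
theorem hG_33 : nall 24 (ckG T lf hA hC Kr 4194304 8589934592 341 1000 11627198422723 4398046511104 33) = true := by decide +kernel
theorem hG_34 : nall 24 (ckG T lf hA hC Kr 4194304 8589934592 341 1000 11627198422723 4398046511104 34) = true := by decide +kernel
theorem hG_35 : nall 24 (ckG T lf hA hC Kr 4194304 8589934592 341 1000 11627198422723 4398046511104 35) = true := by decide +kernel
theorem hG_36 : nall 24 (ckG T lf hA hC Kr 4194304 8589934592 341 1000 11627198422723 4398046511104 36) = true := by decide +kernel
theorem hG_37 : nall 24 (ckG T lf hA hC Kr 4194304 8589934592 341 1000 11627198422723 4398046511104 37) = true := by decide +kernel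
theorem hG_38 : nall 24 (ckG T lf hA hC Kr 4194304 8589934592 341 1000 11627198422723 4398046511104 38) = true := by decide +kernel
theorem hG_39 : nall 24 (ckG T lf hA hC Kr 4194304 8589934592 341 1000 11627198422723 4398046511104 39) = true := by decide +kernel
theorem hG_40 : nall 24 (ckG T lf hA hC Kr 4194304 8589934592 341 1000 11627198422723 4398046511104 40) = true := by decide +kernel
theorem hG_41 : nall 24 (ckG T lf hA hC Kr 4194304 8589934592 341 1000 11627198422723 4398046511104 41) = true := by decide +kernel
theorem hG_42 : nall 24 (ckG T lf hA hC Kr 4194304 8589934592 341 1000 11627198422723 4398046511104 42) = true := by decide +kernel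
theorem hG_43 : nall 24 (ckG T lf hA hC Kr 4194304 8589934592 341 1000 11627198422723 4398046511104 43) = true := by decide +kernel
theorem hG_44 : nall 24 (ckG T lf hA hC Kr 4194304 8589934592 341 1000 11627198422723 4398046511104 44) = true := by decide +kernel
theorem hG_45 : nall 24 (ckG T lf hA hC Kr 4194304 8589934592 341 1000 11627198422723 4398046511104 45) = true := by decide +kernel
theorem hG_46 : nall 24 (ckG T lf hA hC Kr 4194304 8589934592 341 1000 11627198422723 4398046511104 46) = true := by decide +kernel
theorem hG_47 : nall 24 (ckG T lf hA hC Kr 4194304 8589934592 341 1000 11627198422723 4398046511104 47) = true := by decide +kernel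
theorem hG_48 : nall 24 (ckG T lf hA hC Kr 4194304 8589934592 341 1000 11627198422723 4398046511104 48) = true := by decide +kernel
theorem hG_49 : nall 24 (ckG T lf hA hC Kr 4194304 8589934592 341 1000 11627198422723 4398046511104 49) = true := by decide +kernel
theorem hG_50 : nall 24 (ckG T lf hA hC Kr 4194304 8589934592 341 1000 11627198422723 4398046511104 50) = true := by decide +kernel
theorem hG_51 : nall 24 (ckG T lf hA hC Kr 4194304 8589934592 341 1000 11627198422723 4398046511104 51) = true := by decide +kernel
theorem hG_52 : nall 24 (ckG T lf hA hC Kr 4194304 8589934592 341 1000 11627198422723 4398046511104 52) = true := by decide +kernel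
theorem hG_53 : nall 24 (ckG T lf hA hC Kr 4194304 8589934592 341 1000 11627198422723 4398046511104 53) = true := by decide +kernel
theorem hP_0 : nall 18 (ckP TP mf 10 4194304 1480905978259 0) = true := by decide +kernel
theorem hP_1 : nall 18 (ckP TP mf 10 4194304 1480905978259 1) = true := by decide +kernel
theorem hP_2 : nall 18 (ckP TP mf 10 4194304 1480905978259 2) = true := by decide +kernel
theorem hS_00 : ckS T 0 0 = true := by decide +kernel
theorem hS_01 : ckS T 0 1 = true := by decide +kernel
theorem hS_02 : ckS T 0 2 = true := by decide +kernel
theorem hS_10 : ckS T 1 0 = true := by decide +kernel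
theorem hS_11 : ckS T 1 1 = true := by decide +kernel
theorem hS_12 : ckS T 1 2 = true := by decide +kernel
theorem hS_20 : ckS T 2 0 = true := by decide +kernel
theorem hS_21 : ckS T 2 1 = true := by decide +kernel
theorem hS_22 : ckS T 2 2 = true := by decide +kernel
theorem hY : ckY TP = true := by decide +kernel

end Pool.Agent.T9h12.M5.H4
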